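import Pool.Agent.Helper97.LPP.Final

/-!
# The conditional hydrodynamic limit of exponential last passage percolation

`IsPath p q π` (in `Pool/Agent/Helper97/LPP/Path.lean`) says that `π` is the set of sites of a
lattice path from `p` to `q` with steps `(1,0)` and `(0,1)`, and `lp x p q` is the largest total
weight of such a path in the weights `x`. The functions `shp a b = (√a + √b)²`, `disc`, `mm`,
the sets `Om1`, `Om2` and the function `hh a b l u v = h(u,v)` are in
`Pool/Agent/Helper97/LPP/Defs.lean`, exactly as in the problem.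
-/

namespace Pool.Agent.Results.MP_6c0a5d_pr.ConditionalLimit

open MeasureTheory ProbabilityTheory Filter Topology Helper97.LPP

/-- `𝓛(α, β) = 𝓛(⌈α⌉, ⌈β⌉)`: the passage time from `(1,1)` to `(⌈α⌉, ⌈β⌉)` in the weights `x` -/
noncomputable def passage (x : ℕ × ℕ → ℝ) (α β : ℝ) : ℝ := lp x (1, 1) (⌈α⌉₊, ⌈β⌉₊)

theorem passage_eq (x : ℕ × ℕ → ℝ) {a b : ℝ} (ha : 0 < a) (hb : 0 < b) {N : ℕ} (hN : 1 ≤ N) :
    passage x (a * N) (b * N) = lp (fun w => x (w + (1, 1))) (0, 0) (pt a b N) := by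
  rw [← lp_shift]
  unfold passage pt
  have h1 := (ceil_bounds ha hN).1
  have h2 := (ceil_bounds hb hN).1
  congr 1
  ext <;> simp <;> omega

/-- **Q1 of MP_6c0a5d_pr is true.** Let the weights `W w`, `w ∈ {1,2,…}²`, be independent and
exponential of mean one, `a, b > 0`, `l > (√a + √b)²`, `u, v > 0` and `ε > 0`. For all large `N`
the elementary conditional probabilities of `|𝓛(auN, bvN)/N - h(u,v)| > ε` given
`|𝓛(aN, bN) - lN| < η` (the conditioning event has positive probability) converge, as `η ↓ 0`,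
to a number `c N`, and `c N → 0` as `N → ∞`. -/
theorem result {Ω : Type*} [MeasurableSpace Ω] (P : Measure Ω) [IsProbabilityMeasure P]
    (W : ℕ × ℕ → Ω → ℝ) (hm : ∀ w : ℕ × ℕ, 1 ≤ w.1 → 1 ≤ w.2 → Measurable (W w))
    (hi : iIndepFun (fun w : {w : ℕ × ℕ // 1 ≤ w.1 ∧ 1 ≤ w.2} => W w) P)
    (hlaw : ∀ w : ℕ × ℕ, 1 ≤ w.1 → 1 ≤ w.2 → P.map (W w) = expMeasure 1)
    (a b l u v ε : ℝ) (ha : 0 < a) (hb : 0 < b) (hl : (√a + √b) ^ 2 < l) (hu : 0 < u)
    (hv : 0 < v) (hε : 0 < ε) :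
    ∃ c : ℕ → ℝ, (∀ᶠ N : ℕ in atTop,
      (∀ η > 0, 0 < P {ω | |passage (fun w => W w ω) (a * N) (b * N) - l * N| < η}) ∧
      Tendsto (fun η : ℝ =>
        (P {ω | ε < |passage (fun w => W w ω) (a * u * N) (b * v * N) / N - hh a b l u v| ∧
          |passage (fun w => W w ω) (a * N) (b * N) - l * N| < η}).toReal /
        (P {ω | |passage (fun w => W w ω) (a * N) (b * N) - l * N| < η}).toReal) (𝓝[>] 0)
        (𝓝 (c N))) ∧ Tendsto c atTop (𝓝 0) := by
  have h : IsExpField P (fun w : ℕ × ℕ => W (w + (1, 1))) := by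
    refine ⟨fun w => hm _ (by simp) (by simp), ?_, fun w => hlaw _ (by simp) (by simp)⟩
    exact hi.precomp (g := fun w : ℕ × ℕ =>
      (⟨w + (1, 1), by simp, by simp⟩ : {w : ℕ × ℕ // 1 ≤ w.1 ∧ 1 ≤ w.2})) (by
        intro w w' hww
        have := congrArg Subtype.val hww
        exact add_right_cancel this)
  obtain ⟨c, h1, h2⟩ := final_field h ha hb hl hu hv hε
  refine ⟨c, ?_, h2⟩
  filter_upwards [h1, eventually_ge_atTop 1] with N g1 g2
  have e1 : ∀ ω, passage (fun w => W w ω) (a * N) (b * N) =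
      lp (fun w => W (w + (1, 1)) ω) (0, 0) (pt a b N) := fun ω => passage_eq _ ha hb g2
  have e2 : ∀ ω, passage (fun w => W w ω) (a * u * N) (b * v * N) =
      lp (fun w => W (w + (1, 1)) ω) (0, 0) (pt (a * u) (b * v) N) :=
    fun ω => passage_eq _ (mul_pos ha hu) (mul_pos hb hv) g2
  simp only [e1, e2]
  exact g1

end Pool.Agent.Results.MP_6c0a5d_pr.ConditionalLimit
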